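import Pool.Agent.Helper5.PQ.Stm

/-!
# Project PQ, package GEN
-/

namespace Pool.Agent.Helper70.PQ

open Finset Classical Pool.Agent.Helper5.PQ

/-- A product of at most `n` numbers below `M` is less than `M ^ n`. -/
lemma prod_lt {S : Finset ℕ} {M n : ℕ} (hM : 1 < M) (hn : 0 < n) (hS : S.card ≤ n)
    (h : ∀ q ∈ S, q < M) : ∏ q ∈ S, q < M ^ n := by
  rcases S.eq_empty_or_nonempty with rfl | hne
  · rw [prod_empty]
    exact Nat.one_lt_pow hn.ne' hM
  · calc ∏ q ∈ S, q ≤ ∏ _q ∈ S, (M - 1) :=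
        prod_le_prod' fun q hq => by
          have := h q hq
          omega
      _ = (M - 1) ^ S.card := by rw [prod_const]
      _ < M ^ S.card := Nat.pow_lt_pow_left (by omega) hne.card_pos.ne'
      _ ≤ M ^ n := Nat.pow_le_pow_right (by omega) hS

/-- Two members of a class are far apart. -/
lemma far {Q0 I P : Finset ℕ} {j : ℕ} (hj : 0 < j) (hQ : ∀ q ∈ Q0, q.Prime)
    (hI : ∀ p ∈ I, p.Prime) (hlt : ∀ q ∈ Q0, ∀ p ∈ I, q < p) (hP : P ⊆ I) (hPc : P.card = 2 * j)
    {m : ℕ → ℕ} (hm : ∀ p ∈ I, ¬ p ∣ m p) {T T' : Finset ℕ} (hT : T ⊆ Q0) (hT' : T' ⊆ Q0)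
    (hmod : ∀ p ∈ P, ((∏ q ∈ T, q) * m p) % p = ((∏ q ∈ T', q) * m p) % p)
    (hc : (symmDiff T T').card ≤ 2 * j) : T = T' := by
  have hPne : P.Nonempty := by
    rw [← card_pos]
    omega
  set M := P.min' hPne with hMdef
  have hMP : M ∈ P := P.min'_mem hPne
  have hM : 1 < M := (hI M (hP hMP)).one_lt
  have hMprod : M ^ (2 * j) ≤ ∏ p ∈ P, p := by
    rw [← hPc]
    exact pow_card_le_prod P (fun p => p) M fun p hp => P.min'_le p hp
  have hA : (T \ T').card ≤ 2 * j := by
    refine (card_le_card ?_).trans hc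
    intro x hx
    rw [mem_symmDiff]
    left
    exact mem_sdiff.1 hx
  have hB : (T' \ T).card ≤ 2 * j := by
    refine (card_le_card ?_).trans hc
    intro x hx
    rw [mem_symmDiff]
    right
    exact mem_sdiff.1 hx
  have hA' : ∏ q ∈ T \ T', q < ∏ p ∈ P, p :=
    (prod_lt hM (by omega) hA fun q hq => hlt q (hT (mem_sdiff.1 hq).1) M (hP hMP)).trans_le hMprod
  have hB' : ∏ q ∈ T' \ T, q < ∏ p ∈ P, p :=
    (prod_lt hM (by omega) hB fun q hq => hlt q (hT' (mem_sdiff.1 hq).1) M (hP hMP)).trans_le hMprod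
  have hcop : ∀ p ∈ P, ∀ q ∈ Q0, Nat.Coprime p q := by
    intro p hp q hq
    rw [Nat.coprime_primes (hI p (hP hp)) (hQ q hq)]
    have := hlt q hq p (hP hp)
    omega
  have hp1 : ∀ p ∈ P, (∏ q ∈ T \ T', q) ≡ (∏ q ∈ T' \ T, q) [MOD p] := by
    intro p hp
    have h1 : (∏ q ∈ T, q) * m p ≡ (∏ q ∈ T', q) * m p [MOD p] := hmod p hp
    have h2 : Nat.gcd p (m p) = 1 :=
      (Nat.Prime.coprime_iff_not_dvd (hI p (hP hp))).2 (hm p (hP hp))
    have h3 : (∏ q ∈ T, q) ≡ (∏ q ∈ T', q) [MOD p] := Nat.ModEq.cancel_right_of_coprime h2 h1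
    have e1 : ∏ q ∈ T, q = (∏ q ∈ T \ T', q) * ∏ q ∈ T ∩ T', q := by
      rw [← prod_union]
      · rw [sdiff_union_inter]
      · exact disjoint_sdiff_inter T T'
    have e2 : ∏ q ∈ T', q = (∏ q ∈ T' \ T, q) * ∏ q ∈ T ∩ T', q := by
      rw [← prod_union]
      · rw [inter_comm T T', sdiff_union_inter]
      · rw [inter_comm T T']
        exact disjoint_sdiff_inter T' T
    rw [e1, e2] at h3
    refine Nat.ModEq.cancel_right_of_coprime ?_ h3
    exact Nat.Coprime.prod_right fun q hq => hcop p hp q (hT (mem_inter.1 hq).1)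
  have hprod : (∏ q ∈ T \ T', q) ≡ (∏ q ∈ T' \ T, q) [MOD ∏ p ∈ P, p] := by
    have hpair : (P : Set ℕ).Pairwise (Function.onFun Nat.Coprime (fun p => p)) := by
      intro p hp q hq hpq
      exact (Nat.coprime_primes (hI p (hP hp)) (hI q (hP hq))).2 hpq
    clear hA' hB' hMprod hA hB hc hmod
    have : ∀ S ⊆ P, (∏ q ∈ T \ T', q) ≡ (∏ q ∈ T' \ T, q) [MOD ∏ p ∈ S, p] := by
      intro S
      induction S using Finset.induction_on with
      | empty =>
        intro _
        rw [prod_empty]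
        exact Nat.modEq_one
      | insert a s ha ih =>
        intro hs
        rw [prod_insert ha]
        refine (Nat.modEq_and_modEq_iff_modEq_mul ?_).1
          ⟨hp1 a (hs (mem_insert_self a s)), ih ((subset_insert a s).trans hs)⟩
        refine Nat.Coprime.prod_right fun q hq => ?_
        refine hpair (hs (mem_insert_self a s)) (hs (mem_insert_of_mem hq)) ?_
        rintro rfl
        exact ha hq
    exact this P subset_rfl
  have heq : ∏ q ∈ T \ T', q = ∏ q ∈ T' \ T, q := Nat.ModEq.eq_of_lt_of_lt hprod hA' hB'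
  -- the two sets are disjoint sets of primes
  have key : ∀ S S' : Finset ℕ, S ⊆ Q0 → S' ⊆ Q0 → (∏ q ∈ S \ S', q = ∏ q ∈ S' \ S, q) →
      S ⊆ S' := by
    intro S S' hS hS' h x hx
    by_contra hx'
    have h1 : x ∣ ∏ q ∈ S' \ S, q := by
      rw [← h]
      exact dvd_prod_of_mem _ (mem_sdiff.2 ⟨hx, hx'⟩)
    obtain ⟨q, hq, hxq⟩ := (Prime.dvd_finset_prod_iff (hQ x (hS hx)).prime _).1 h1
    have h2 : x = q := (Nat.prime_dvd_prime_iff_eq (hQ x (hS hx))
      (hQ q (hS' (mem_sdiff.1 hq).1))).1 hxq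
    exact (mem_sdiff.1 hq).2 (h2 ▸ hx)
  exact Subset.antisymm (key T T' hT hT' heq) (key T' T hT' hT heq.symm)

/-- The size of a class. -/
lemma cls (hS : S_SPH) {Q0 I P : Finset ℕ} {j h : ℕ} (hQ : ∀ q ∈ Q0, q.Prime)
    (hI : ∀ p ∈ I, p.Prime) (hlt : ∀ q ∈ Q0, ∀ p ∈ I, q < p) (hP : P ⊆ I) (hPc : P.card = 2 * j)
    {m : ℕ → ℕ} (hm : ∀ p ∈ I, ¬ p ∣ m p) {F G : Finset (Finset ℕ)} (hF : ∀ T ∈ F, T ⊆ Q0)
    (hdeg : ∀ T ∈ F, h ≤ Deg Q0 F T) (hG : G ⊆ F)
    (hmod : ∀ T ∈ G, ∀ T' ∈ G, ∀ p ∈ P,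
      ((∏ q ∈ T, q) * m p) % p = ((∏ q ∈ T', q) * m p) % p) :
    h.choose j * G.card ≤ F.card := by
  rcases Nat.eq_zero_or_pos j with rfl | hj
  · rw [Nat.choose_zero_right, one_mul]
    exact card_le_card hG
  have h1 := (hS Q0 F h hdeg).1
  let S : Finset ℕ → Finset (Finset ℕ) := fun T =>
    F.filter (fun T' => symmDiff T T' ⊆ Q0 ∧ (symmDiff T T').card = j)
  have hdisj : (G : Set (Finset ℕ)).PairwiseDisjoint S := by
    intro T hT T' hT' hne
    rw [Function.onFun, disjoint_left]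
    intro U hU hU'
    apply hne
    have hu := (mem_filter.1 hU).2.2
    have hu' := (mem_filter.1 hU').2.2
    refine far hj hQ hI hlt hP hPc hm (hF T (hG hT)) (hF T' (hG hT'))
      (fun p hp => hmod T hT T' hT' p hp) ?_
    have h2 : symmDiff T T' ⊆ symmDiff T U ∪ symmDiff T' U := by
      intro x hx
      rw [mem_symmDiff] at hx
      rw [mem_union, mem_symmDiff, mem_symmDiff]
      tauto
    refine (card_le_card h2).trans ((card_union_le _ _).trans ?_)
    rw [hu, hu']
    omega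
  calc h.choose j * G.card = ∑ _T ∈ G, h.choose j := by
        rw [sum_const, smul_eq_mul, mul_comm]
    _ ≤ ∑ T ∈ G, (S T).card := sum_le_sum fun T hT => h1 T (hG hT) j
    _ = (G.biUnion S).card := (card_biUnion hdisj).symm
    _ ≤ F.card := card_le_card (biUnion_subset.2 fun T _ => filter_subset _ _)

theorem gen : S_SPH → S_GEN := by
  intro hS Q0 I hQ hI hlt F h hF hdeg m hm Z K hK F0 j
  set Bad : Finset ℕ → Finset ℕ := fun T =>
    I.filter (fun p => ((∏ q ∈ T, q) * m p) % p ∈ Z p) with hBad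
  set F' := F.filter (fun T => F0 ≤ (Bad T).card) with hF'
  have hcount : ∀ P ∈ powersetCard (2 * j) I,
      h.choose j * (F.filter (fun T => P ⊆ Bad T)).card ≤ K ^ (2 * j) * F.card := by
    intro P hPm
    obtain ⟨hP, hPc⟩ := mem_powersetCard.1 hPm
    let f : Finset ℕ → (∀ p ∈ P, ℕ) := fun T p _ => ((∏ q ∈ T, q) * m p) % p
    have hmaps : ∀ T ∈ F.filter (fun T => P ⊆ Bad T), f T ∈ P.pi Z := by
      intro T hT
      rw [mem_pi]
      intro p hp
      exact (mem_filter.1 ((mem_filter.1 hT).2 hp)).2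
    rw [card_eq_sum_card_fiberwise hmaps, mul_sum]
    calc ∑ z ∈ P.pi Z, h.choose j *
          (((F.filter (fun T => P ⊆ Bad T)).filter (fun T => f T = z)).card)
        ≤ ∑ _z ∈ P.pi Z, F.card := by
          refine sum_le_sum fun z _ => ?_
          refine cls hS hQ hI hlt hP hPc hm hF hdeg
            ((filter_subset _ _).trans (filter_subset _ _)) ?_
          intro T hT T' hT' p hp
          have e1 := (mem_filter.1 hT).2
          have e2 := (mem_filter.1 hT').2
          exact congrFun (congrFun (e1.trans e2.symm) p) hp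
      _ = (P.pi Z).card * F.card := by rw [sum_const, smul_eq_mul]
      _ ≤ K ^ (2 * j) * F.card := by
          refine Nat.mul_le_mul_right _ ?_
          rw [card_pi, ← hPc]
          exact prod_le_pow_card P (fun p => (Z p).card) K fun p hp => hK p (hP hp)
  have hdc : F'.card * F0.choose (2 * j) ≤
      ∑ P ∈ powersetCard (2 * j) I, (F.filter (fun T => P ⊆ Bad T)).card := by
    calc F'.card * F0.choose (2 * j) = ∑ _T ∈ F', F0.choose (2 * j) := by
          rw [sum_const, smul_eq_mul]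
      _ ≤ ∑ T ∈ F', (Bad T).card.choose (2 * j) :=
          sum_le_sum fun T hT => Nat.choose_le_choose _ (mem_filter.1 hT).2
      _ ≤ ∑ T ∈ F, (Bad T).card.choose (2 * j) :=
          sum_le_sum_of_subset (filter_subset _ _)
      _ = ∑ T ∈ F, ∑ P ∈ powersetCard (2 * j) I, (if P ⊆ Bad T then 1 else 0) := by
          refine sum_congr rfl fun T _ => ?_
          rw [← card_powersetCard, card_eq_sum_ones, ← sum_filter]
          refine sum_congr ?_ fun _ _ => rfl
          ext P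
          rw [mem_powersetCard, mem_filter, mem_powersetCard]
          constructor
          · rintro ⟨h1, h2⟩
            exact ⟨⟨h1.trans (filter_subset _ _), h2⟩, h1⟩
          · rintro ⟨⟨_, h2⟩, h3⟩
            exact ⟨h3, h2⟩
      _ = ∑ P ∈ powersetCard (2 * j) I, (F.filter (fun T => P ⊆ Bad T)).card := by
          rw [sum_comm]
          refine sum_congr rfl fun P _ => ?_
          rw [card_eq_sum_ones, sum_filter]
  calc F0.choose (2 * j) * h.choose j * F'.card
      = h.choose j * (F'.card * F0.choose (2 * j)) := by ring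
    _ ≤ h.choose j * ∑ P ∈ powersetCard (2 * j) I, (F.filter (fun T => P ⊆ Bad T)).card :=
        Nat.mul_le_mul_left _ hdc
    _ = ∑ P ∈ powersetCard (2 * j) I, h.choose j * (F.filter (fun T => P ⊆ Bad T)).card := by
        rw [mul_sum]
    _ ≤ ∑ _P ∈ powersetCard (2 * j) I, K ^ (2 * j) * F.card := sum_le_sum hcount
    _ = I.card.choose (2 * j) * (K ^ (2 * j) * F.card) := by
        rw [sum_const, smul_eq_mul, card_powersetCard]
    _ = K ^ (2 * j) * I.card.choose (2 * j) * F.card := by ring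

end Pool.Agent.Helper70.PQ
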